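import Pool.Agent.N646.RG.All
import Pool.Agent.H732R3.TupIP
import Pool.Agent.K6.H92.PS.Scl

/-!
# Prime triples, quadruples and `k`-tuples near every vector, at all but boundedly many scales

For every `k` there are `n` and `c > 0` such that for every `λ > 0` there is `κ > 0` with: for all large `N` and every
chain of scales `λ log N ≤ T_0`, `2 T_i ≤ T_(i+1)`, `T_R ≤ N / (10 n)`, for all but at most `n` of the indices
`i < R`, EVERY vector `w ∈ ℤ ^ k` with coordinates at most `T_(i+1) / 16` has the following property: at least
`c T_i ^ k` of the vectors `h` in the box of the `h` with `|h_j - w_j| ≤ T_i` (with `k` different nonzero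
coordinates) have at least `κ N / (log N) ^ (k + 1)` primes `p ≤ N` for which `p + h_1, ..., p + h_k` are all
prime: up to the constant, the number predicted by Hardy and Littlewood.

`k = 2` concerns prime triples, `k = 3` prime quadruples. For instance for `T_i = K ^ i` (with any large `K`) and
`w = d (2, 6, 8)`: for every large `N` and all but at most `n` of the `i` with `λ log N ≤ K ^ i`,
`K ^ (i + 1) ≤ N / (10 n)`, for every integer `d` between `K ^ i` and `K ^ (i + 1) / 128`, there are prime quadruples
`p, p + h_1, p + h_2, p + h_3` with `h = d (2, 6, 8)` up to an error `K ^ i`, in the right number. The number `n` does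
not depend on `N`, `K` and `λ`. For `N → ∞` with `h` fixed (and a smaller number of primes `p`) every vector is at
a bounded distance from the good vectors (starting files); the present theorem is about all large `N`, all
vectors up to a multiple of `N`, boxes down to a small multiple of `log N`, and the right number.

Proof. If `n` scales fail, with vectors `w_1, ..., w_n`, then by the theorem of the file `NearSubsumsRightOrder` (with
the radii `T_i / 8`) some box around a subsum contains many good vectors; it lies in the box of the largest index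
of the subsum, which fails.
-/

set_option autoImplicit false

namespace Pool.Agent.Results.MP_3efbeb_nt.AllBoxesAtMostScales

open Finset Filter

/-- the number of the primes `p ≤ N` for which all the `p + h i` are (positive) primes -/
def primeTuples {k : ℕ} (h : Fin k → ℤ) (N : ℕ) : ℕ :=
  ((range (N + 1)).filter (fun p : ℕ => p.Prime ∧ ∀ i, ((p : ℤ) + h i).toNat.Prime)).card

open Classical in
/-- the vectors `h` with `|h i - a i| ≤ T`, with `k` different nonzero coordinates, for which there are at least
`κ N / (log N) ^ (k + 1)` primes `p ≤ N` with all `p + h i` prime -/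
noncomputable def goodVectors {k : ℕ} (κ : ℝ) (N T : ℕ) (a : Fin k → ℤ) : Finset (Fin k → ℤ) :=
  (Fintype.piFinset (fun i : Fin k => Icc (a i - T) (a i + T))).filter
    (fun h : Fin k → ℤ => Function.Injective h ∧ (∀ i, h i ≠ 0) ∧
      κ * (N / (Real.log N) ^ (k + 1)) ≤ (primeTuples h N : ℝ))

theorem result (k : ℕ) : ∃ n : ℕ, ∃ c : ℝ, 0 < c ∧ ∀ lam : ℝ, 0 < lam → ∃ κ : ℝ, 0 < κ ∧
    ∀ᶠ N : ℕ in atTop, ∀ (R : ℕ) (T : ℕ → ℕ), lam * Real.log N ≤ T 0 →
      (∀ i < R, 2 * T i ≤ T (i + 1)) → 10 * n * T R ≤ N →
      ∃ B : Finset ℕ, B.card ≤ n ∧ ∀ i < R, i ∉ B →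
        ∀ w : Fin k → ℤ, (∀ j, 16 * |w j| ≤ T (i + 1)) →
          c * (T i : ℝ) ^ k ≤ ((goodVectors κ N (T i) w).card : ℝ) :=
  Pool.Agent.K6.H92.PS.scales k (Pool.Agent.K6.H92.PS.nearRad k (Pool.Agent.K6.H92.PS.near
    (Pool.Agent.N591.RQ.main Pool.Agent.N595.RQ.main) k (Pool.Agent.N646.RG.sHITM2 k)
    (Pool.Agent.H732R3.Tup.dhj_quarter k)))

end Pool.Agent.Results.MP_3efbeb_nt.AllBoxesAtMostScales
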