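import Pool.Agent.N646.RG.All
import Pool.Agent.K6.H92.PS.Gen

/-!
# Prime triples, quadruples and `k`-tuples near the differences of `5 / 18` of any given integers

Let `k ≥ 0` and let `m, R ≥ 1` with `R < 5 m / 18 + 1`, for instance `R = 3` and `m = 8`, or `R = 4` and `m = 11`. There
is `δ > 0` such that for every `λ > 0` there is `κ > 0` with: for all large `N`, every `T` with
`λ log N ≤ T ≤ N / 10` and ALL integers `s_1, ..., s_m` of absolute value at most `N / 10` there are `R` indices such that
for ALL different indices `i_0, ..., i_k` among them, at least `δ T ^ k` of the vectors `h` with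
`|h_j - (s_(i_j) - s_(i_0))| ≤ T` for all `j` (with `k` different nonzero coordinates) have at least
`κ N / (log N) ^ (k + 1)` primes `p ≤ N` for which `p + h_1, ..., p + h_k` are all prime: up to the constant, the
number predicted by Hardy and Littlewood.

`k = 2` concerns prime triples: among any eight integers there are three `s, s', s''` (in any order) with this
property for `(s' - s, s'' - s)`. `k = 3` concerns prime quadruples: among any eleven integers there are four.

Proof. The almost clique theorem of project RQ (`Pool.Agent.N646.RO.S_WC`) and the hitting theorem of project RG with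
the right order of magnitude (`Pool.Agent.N646.RG.S_HITM2`), both starting files, are applied to the `m` forms
`x + s_i` (shifted and rounded to multiples of the modulus `M`): there are sets `A_i` of shifts `t < T / M` with
`∑ |A_i| ≥ (5 / 18 - ε) m T / M` such that almost all the choices of one shift in each of `k + 1` different `A_i`
are good. At least `R` of the `A_i` have a positive density.
-/

set_option autoImplicit false

namespace Pool.Agent.Results.MP_3efbeb_nt.AnyPositions

open Finset Filter

/-- the number of the primes `p ≤ N` for which all the `p + h i` are (positive) primes -/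
def primeTuples {k : ℕ} (h : Fin k → ℤ) (N : ℕ) : ℕ :=
  ((range (N + 1)).filter (fun p : ℕ => p.Prime ∧ ∀ i, ((p : ℤ) + h i).toNat.Prime)).card

open Classical in
/-- the vectors `h` with `|h i - a i| ≤ T`, with `k` different nonzero coordinates, for which there are at least
`κ N / (log N) ^ (k + 1)` primes `p ≤ N` with all `p + h i` prime -/
noncomputable def goodVectors {k : ℕ} (κ : ℝ) (N T : ℕ) (a : Fin k → ℤ) : Finset (Fin k → ℤ) :=
  (Fintype.piFinset (fun i : Fin k => Icc (a i - T) (a i + T))).filter
    (fun h : Fin k → ℤ => Function.Injective h ∧ (∀ i, h i ≠ 0) ∧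
      κ * (N / (Real.log N) ^ (k + 1)) ≤ (primeTuples h N : ℝ))

theorem result (k m R : ℕ) (hm : 1 ≤ m) (hR : 18 * R < 5 * m + 18) :
    ∃ δ : ℝ, 0 < δ ∧ ∀ lam : ℝ, 0 < lam → ∃ κ : ℝ, 0 < κ ∧ ∀ᶠ N : ℕ in atTop,
      ∀ T : ℕ, lam * Real.log N ≤ T → 10 * T ≤ N →
      ∀ s : Fin m → ℤ, (∀ i, 10 * |s i| ≤ N) →
      ∃ D : Finset (Fin m), R ≤ D.card ∧ ∀ τ : Fin (k + 1) → Fin m, Function.Injective τ →
        (∀ i, τ i ∈ D) → δ * (T : ℝ) ^ k ≤
          ((goodVectors κ N T (fun i : Fin k => s (τ i.succ) - s (τ 0))).card : ℝ) :=
  Pool.Agent.K6.H92.PS.genA (Pool.Agent.N591.RQ.main Pool.Agent.N595.RQ.main) k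
    (Pool.Agent.N646.RG.sHITM2 k) m R hm hR

end Pool.Agent.Results.MP_3efbeb_nt.AnyPositions
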