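import Pool.Agent.N646.RG.All
import Pool.Agent.H732R3.TupIP
import Pool.Agent.K6.H92.PS.Rad

/-!
# Prime triples, quadruples and `k`-tuples near the subsums of any given vectors, in the right number

For every `k` there are `n` and `c > 0` such that for every `λ > 0` there is `κ > 0` with: for all large `N`, ALL
vectors `v_1, ..., v_n ∈ ℤ ^ k` and all radii `T_1, ..., T_n ≥ λ log N` with `|v_j(i)| + T_j ≤ N / (10 n)` there is a
nonempty `J ⊆ {1, ..., n}` such that, for `a = ∑_{j ∈ J} v_j` and `T = ∑_{j ∈ J} T_j`, at least `c T ^ k` of the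
vectors `h` in the box of the `h` with `|h_i - a_i| ≤ T` (with `k` different nonzero coordinates) have at least
`κ N / (log N) ^ (k + 1)` primes `p ≤ N` for which `p + h_1, ..., p + h_k` are all prime: up to the constant, the
number predicted by Hardy and Littlewood.

`k = 2` concerns prime triples, `k = 3` prime quadruples. For `v_j = H_j (2, 6, 8)` we get prime quadruples of
the shape of `n, n + 2, n + 6, n + 8`, enlarged by a factor from the finite sums of any `n` given positive integers
`H_j` (of any sizes up to a multiple of `N`, they may depend on `N`), up to an error which may be an arbitrarily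
small multiple of the average distance of consecutive primes; for equal `H_j = H` the factor is `d H`, `1 ≤ d ≤ n`.

Proof. The almost clique theorem of project RQ (`Pool.Agent.N646.RO.S_WC`) and the hitting theorem of project RG with
the right order of magnitude (`Pool.Agent.N646.RG.S_HITM2`), both starting files, are applied to `m` forms
`x + s_i` with arbitrary `|s_i| ≤ N / 10` (shifted and rounded to multiples of the modulus): at least `5 m / 18` of
the classes of shifts are dense, and almost all the choices of one shift in each of `k + 1` dense classes are good.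
For the `(k + 1) ^ n` positions `s_w = ∑_j v_j(w_j)` (`v_j(0) = 0`), `w` a word over `{0, ..., k}`, the density
Hales-Jewett theorem (starting files) gives `k + 1` dense classes on a combinatorial line, hence the theorem for equal
radii. Applied to all the `v_j + u_j` with `0 ≤ u_j(i) ≤ T_j / 2` it gives the theorem by counting.
-/

set_option autoImplicit false

namespace Pool.Agent.Results.MP_3efbeb_nt.NearSubsumsRightOrder

open Finset Filter

/-- the number of the primes `p ≤ N` for which all the `p + h i` are (positive) primes -/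
def primeTuples {k : ℕ} (h : Fin k → ℤ) (N : ℕ) : ℕ :=
  ((range (N + 1)).filter (fun p : ℕ => p.Prime ∧ ∀ i, ((p : ℤ) + h i).toNat.Prime)).card

open Classical in
/-- the vectors `h` with `|h i - a i| ≤ T`, with `k` different nonzero coordinates, for which there are at least
`κ N / (log N) ^ (k + 1)` primes `p ≤ N` with all `p + h i` prime -/
noncomputable def goodVectors {k : ℕ} (κ : ℝ) (N T : ℕ) (a : Fin k → ℤ) : Finset (Fin k → ℤ) :=
  (Fintype.piFinset (fun i : Fin k => Icc (a i - T) (a i + T))).filter
    (fun h : Fin k → ℤ => Function.Injective h ∧ (∀ i, h i ≠ 0) ∧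
      κ * (N / (Real.log N) ^ (k + 1)) ≤ (primeTuples h N : ℝ))

theorem result (k : ℕ) : ∃ n : ℕ, ∃ c : ℝ, 0 < c ∧ ∀ lam : ℝ, 0 < lam → ∃ κ : ℝ, 0 < κ ∧
    ∀ᶠ N : ℕ in atTop, ∀ (v : Fin n → Fin k → ℤ) (T : Fin n → ℕ), (∀ j, lam * Real.log N ≤ T j) →
      (∀ j i, 10 * n * (|v j i| + T j) ≤ N) →
      ∃ J : Finset (Fin n), J.Nonempty ∧ c * ((∑ j ∈ J, T j : ℕ) : ℝ) ^ k ≤
        ((goodVectors κ N (∑ j ∈ J, T j) (fun i => ∑ j ∈ J, v j i)).card : ℝ) :=
  Pool.Agent.K6.H92.PS.nearRad k (Pool.Agent.K6.H92.PS.near
    (Pool.Agent.N591.RQ.main Pool.Agent.N595.RQ.main) k (Pool.Agent.N646.RG.sHITM2 k)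
    (Pool.Agent.H732R3.Tup.dhj_quarter k))

end Pool.Agent.Results.MP_3efbeb_nt.NearSubsumsRightOrder
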