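import Pool.Agent.Y816.PD.UniJ

set_option autoImplicit false

/-!
# Almost prime triples, quadruples and `k`-tuples all of whose members have restricted digits, in short intervals

Let `H` be an admissible set of `k` shifts (for example `{0, 2, 6}` or `{0, 2, 6, 8}`) and `b ≥ 2` a base. For
each `i < K` let `A i` be an arbitrary set of digits, the product of the `|A i|` being at least
`exp (- c K) b ^ K`. Every interval `(B, B + L]`, `B ≤ L ^ E`, `K = log_b (L / 3)` (integer part), contains at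
least `κ ∏ |A i| / K ^ k` almost prime tuples `m + h` (`h ∈ H`), such that for ALL `h ∈ H` and all `i < K` the
`i`-th digit of `m + h` belongs to `A i`, provided that this is not excluded by the `j` lowest digits. The number
of the prime tuples with this property is at most `C ∏ |A i| / K ^ k`.
-/

namespace Pool.Agent.Results.MP_3efbeb_nt.RestrictedDigits

open Finset Filter
open Pool.Agent.Y816.PD (NA DC AT PT)

/-- the `i`-th digit of `m` in base `b` belongs to `A i` for all `i < K` -/
def Digits (b K : ℕ) (A : ℕ → Finset ℕ) (m : ℕ) : Prop := ∀ i < K, m / b ^ i % b ∈ A i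

/-- `m` has at most `r` prime factors, and all of them are larger than `z ^ (1 / r)` -/
def AlmostPrime (r z m : ℕ) : Prop :=
  m.primeFactorsList.length ≤ r ∧ ∀ p : ℕ, p.Prime → p ∣ m → z < p ^ r

/-- the digits of `m` below the `j`-th determine `m` modulo `b ^ j` -/
lemma mod_eq_of_digits {b m d : ℕ} (j : ℕ) (h : ∀ i < j, m / b ^ i % b = d / b ^ i % b) :
    m % b ^ j = d % b ^ j := by
  induction j with
  | zero => simp [Nat.mod_one]
  | succ j ih =>
    have h1 := ih fun i hi => h i (by omega)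
    have h2 := h j (by omega)
    rw [pow_succ, Nat.mod_mul, Nat.mod_mul, h1, h2]

/-- no carry -/
lemma digits_add {b m d h j : ℕ} (hb : 2 ≤ b) (hm : m % b ^ j = d) (hd : d + h < b ^ j) :
    (∀ i < j, (m + h) / b ^ i % b = (d + h) / b ^ i % b) ∧ ∀ i, j ≤ i → (m + h) / b ^ i = m / b ^ i := by
  have hbj : 0 < b ^ j := by positivity
  have e : m + h = b ^ j * (m / b ^ j) + (d + h) := by
    have := Nat.div_add_mod m (b ^ j)
    rw [hm] at this
    omega
  have e1 : (m + h) % b ^ j = d + h := by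
    rw [e, Nat.mul_add_mod, Nat.mod_eq_of_lt hd]
  have e2 : (m + h) / b ^ j = m / b ^ j := by
    rw [e, Nat.mul_add_div hbj, Nat.div_eq_of_lt hd, add_zero]
  constructor
  · intro i hi
    obtain ⟨t, rfl⟩ := Nat.exists_eq_add_of_le (show i + 1 ≤ j by omega)
    rw [e]
    have e3 : b ^ (i + 1 + t) * (m / b ^ (i + 1 + t)) + (d + h) =
        (d + h) + b ^ i * (b * (b ^ t * (m / b ^ (i + 1 + t)))) := by ring
    rw [e3, Nat.add_mul_div_left _ _ (by positivity), Nat.add_mul_mod_self_left]
  · intro i hi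
    obtain ⟨t, rfl⟩ := Nat.exists_eq_add_of_le hi
    rw [pow_add, ← Nat.div_div_eq_div_mul, ← Nat.div_div_eq_div_mul, e2]

/-- **Almost prime tuples all of whose members have restricted digits, in all short intervals.** -/
theorem result (H : Finset ℕ) (hH0 : 0 ∈ H)
    (hadm : ∀ p : ℕ, p.Prime → ∃ m : ℕ, ∀ h ∈ H, ¬ p ∣ m + h) (E : ℕ) :
    ∃ c : ℝ, 0 < c ∧ ∃ r₀ : ℕ, ∀ r : ℕ, r₀ ≤ r → ∀ b : ℕ, 2 ≤ b → ∀ j : ℕ, ∃ κ C : ℝ, 0 < κ ∧ 0 < C ∧
      ∀ᶠ L : ℕ in atTop, ∀ B : ℕ, B ≤ L ^ E → ∀ K : ℕ, K = Nat.log b (L / 3) →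
        ∀ A : ℕ → Finset ℕ, (∀ i < K, A i ⊆ range b) →
        (b : ℝ) ^ K ≤ Real.exp (c * K) * ∏ i ∈ range K, ((A i).card : ℝ) →
        ((∃ d : ℕ, ∀ h ∈ H, d + h < b ^ j ∧ (d + h).Coprime b ∧ Digits b j A (d + h)) →
          κ * (∏ i ∈ range K, ((A i).card : ℝ)) / (K : ℝ) ^ H.card ≤
            ({m : ℕ | ∀ h ∈ H, (B < m + h ∧ m + h ≤ B + L) ∧ AlmostPrime r (b ^ K) (m + h) ∧
              Digits b K A (m + h)}.ncard : ℝ)) ∧
        ({m : ℕ | (B < m ∧ m ≤ B + L) ∧ Digits b K A m ∧ ∀ h ∈ H, (m + h).Prime}.ncard : ℝ) ≤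
          C * (∏ i ∈ range K, ((A i).card : ℝ)) / (K : ℝ) ^ H.card := by
  obtain ⟨c, hc, r₀, hr₀, h⟩ := Pool.Agent.Y816.PD.uni_set H hadm H.card rfl (card_pos.2 ⟨0, hH0⟩) (4 * E)
  refine ⟨c / 2, by positivity, r₀, fun r hr b hb j => ?_⟩
  obtain ⟨κ, C, hκ, hC, h1⟩ := h r hr b hb (2 * (3 * b))
  have hb0 : 0 < b := by omega
  have hbR : (0 : ℝ) < b := by exact_mod_cast hb0
  refine ⟨κ / (b : ℝ) ^ j, C, by positivity, hC, ?_⟩
  have hexp : Tendsto (fun K : ℕ => Real.exp (c / 2 * K)) atTop atTop :=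
    Real.tendsto_exp_atTop.comp (tendsto_natCast_atTop_atTop.const_mul_atTop (by positivity))
  obtain ⟨K0, hK0⟩ := eventually_atTop.1 (h1.and (hexp.eventually_ge_atTop ((b : ℝ) ^ j)))
  filter_upwards [eventually_ge_atTop (3 * b ^ (K0 + j + 1))] with L hL B hB K hK A hA hprod
  obtain ⟨hKK, hb1, hb2⟩ := Pool.Agent.Y816.PD.log_three hb (K0 + j + 1) hL hK
  obtain ⟨hK1, hK2⟩ := hK0 K (by omega)
  have hLpos : 1 ≤ L := by
    have : 0 < b ^ (K0 + j + 1) := by positivity
    omega
  have e1 : L ≤ b ^ (4 * K) := by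
    calc L ≤ 3 * b * b ^ K := hb2
      _ ≤ b ^ 2 * b * b ^ K := by
          apply Nat.mul_le_mul_right
          apply Nat.mul_le_mul_right
          nlinarith
      _ = b ^ (K + 3) := by ring
      _ ≤ b ^ (4 * K) := Nat.pow_le_pow_right hb0 (by omega)
  have hBx : B ≤ b ^ (4 * E * K) := by
    calc B ≤ L ^ E := hB
      _ ≤ (b ^ (4 * K)) ^ E := Nat.pow_le_pow_left e1 E
      _ = b ^ (4 * E * K) := by rw [← pow_mul]; congr 1; ring
  have key := hK1 (Set.Ioc B (B + L)) B L (L + 1) hb1 (by omega)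
    (by
      calc L + 1 ≤ 2 * L := by omega
        _ ≤ 2 * (3 * b * b ^ K) := Nat.mul_le_mul_left _ hb2
        _ = 2 * (3 * b) * b ^ K := by ring)
    hBx (fun m hm1 hm2 => ⟨hm1, by omega⟩) (fun m hm => ⟨hm.1, by have := hm.2; omega⟩)
  have hNA : ∀ A : ℕ → Finset ℕ, NA K A = ∏ i ∈ range K, ((A i).card : ℝ) := fun A => rfl
  have hNA0 : 0 ≤ ∏ i ∈ range K, ((A i).card : ℝ) := prod_nonneg fun i _ => Nat.cast_nonneg _
  constructor
  · rintro ⟨d, hd⟩
    have hj : 1 ≤ j := by
      by_contra hcon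
      have hj0 : j = 0 := by omega
      obtain ⟨h2, h3, -⟩ := hd 0 hH0
      rw [hj0, pow_zero] at h2
      have h4 : d = 0 := by omega
      rw [h4, add_zero, Nat.coprime_zero_left] at h3
      omega
    have hdj : d < b ^ j := by
      have := (hd 0 hH0).1
      omega
    obtain ⟨A', hA'⟩ : ∃ A' : ℕ → Finset ℕ, A' = fun i => if i < j then {d / b ^ i % b} else A i := ⟨_, rfl⟩
    have hsub : ∀ i < K, A' i ⊆ range b := by
      intro i hi
      rw [hA']
      dsimp only
      split_ifs with hij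
      · rw [singleton_subset_iff, mem_range]
        exact Nat.mod_lt _ hb0
      · exact hA i hi
    have hle : ∏ i ∈ range K, ((A i).card : ℝ) ≤ (b : ℝ) ^ j * NA K A' := by
      have hjK : range K = range j ∪ Ico j K := by
        ext i
        simp only [mem_union, mem_range, mem_Ico]
        omega
      have hdis : Disjoint (range j) (Ico j K) := by
        rw [disjoint_left]
        intro i hi hi2
        rw [mem_range] at hi
        rw [mem_Ico] at hi2
        omega
      unfold NA
      rw [hjK, prod_union hdis, prod_union hdis]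
      have h2 : ∏ i ∈ range j, ((A' i).card : ℝ) = 1 := by
        apply prod_eq_one
        intro i hi
        rw [hA']
        dsimp only
        rw [if_pos (mem_range.1 hi), card_singleton, Nat.cast_one]
      have h3 : ∏ i ∈ Ico j K, ((A' i).card : ℝ) = ∏ i ∈ Ico j K, ((A i).card : ℝ) := by
        apply prod_congr rfl
        intro i hi
        rw [hA']
        dsimp only
        rw [if_neg (by rw [mem_Ico] at hi; omega)]
      have h4 : ∏ i ∈ range j, ((A i).card : ℝ) ≤ (b : ℝ) ^ j := by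
        calc ∏ i ∈ range j, ((A i).card : ℝ) ≤ ∏ i ∈ range j, (b : ℝ) := by
              apply prod_le_prod (fun i _ => Nat.cast_nonneg _)
              intro i hi
              have h5 := card_le_card (hA i (by rw [mem_range] at hi; omega))
              rw [card_range] at h5
              exact_mod_cast h5
          _ = (b : ℝ) ^ j := by rw [prod_const, card_range]
      rw [h2, h3, one_mul]
      exact mul_le_mul_of_nonneg_right h4 (prod_nonneg fun i _ => Nat.cast_nonneg _)
    have hbK : (b : ℝ) ^ K ≤ Real.exp (c * K) * NA K A' := by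
      have hNA'0 : 0 ≤ NA K A' := prod_nonneg fun i _ => Nat.cast_nonneg _
      calc (b : ℝ) ^ K ≤ Real.exp (c / 2 * K) * ∏ i ∈ range K, ((A i).card : ℝ) := hprod
        _ ≤ Real.exp (c / 2 * K) * ((b : ℝ) ^ j * NA K A') :=
            mul_le_mul_of_nonneg_left hle (Real.exp_nonneg _)
        _ ≤ Real.exp (c / 2 * K) * (Real.exp (c / 2 * K) * NA K A') :=
            mul_le_mul_of_nonneg_left (mul_le_mul_of_nonneg_right hK2 hNA'0) (Real.exp_nonneg _)
        _ = Real.exp (c * K) * NA K A' := by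
            rw [← mul_assoc, ← Real.exp_add]
            congr 2
            ring
    obtain ⟨h2, -⟩ := key A' hsub hbK
    have h3 := h2 ⟨d % b, by
        rw [hA']
        dsimp only
        rw [if_pos (by omega), mem_singleton, pow_zero, Nat.div_one], fun h hh => by
        have h4 := (hd h hh).2.1
        have h5 : (d % b + h) % b = (d + h) % b := by rw [Nat.mod_add_mod]
        rw [Nat.coprime_iff_gcd_eq_one] at h4 ⊢
        rw [Nat.ModEq.gcd_eq (show d % b + h ≡ d + h [MOD b] from h5)]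
        exact h4⟩
    have h4 : DC b K A' (AT H (Set.Ioc B (B + L)) r (b ^ K)) ≤
        {m : ℕ | ∀ h ∈ H, (B < m + h ∧ m + h ≤ B + L) ∧ AlmostPrime r (b ^ K) (m + h) ∧
              Digits b K A (m + h)}.ncard := by
      unfold DC
      apply Set.ncard_le_ncard
      · rintro m ⟨⟨hm1, hm2⟩, hmd⟩ h hh
        refine ⟨(hm2 h hh).1, ⟨(hm2 h hh).2.2, (hm2 h hh).2.1⟩, ?_⟩
        have h5 : m % b ^ j = d := by
          rw [mod_eq_of_digits (d := d) j, Nat.mod_eq_of_lt hdj]
          intro i hi
          have h6 := hmd i (by omega)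
          rw [hA'] at h6
          dsimp only at h6
          rw [if_pos hi, mem_singleton] at h6
          exact h6
        obtain ⟨h6, h7⟩ := digits_add (h := h) hb h5 (hd h hh).1
        intro i hi
        by_cases hij : i < j
        · rw [h6 i hij]
          exact (hd h hh).2.2 i hij
        · rw [h7 i (by omega)]
          have h8 := hmd i hi
          rw [hA'] at h8
          dsimp only at h8
          rw [if_neg hij] at h8
          exact h8
      · apply (finite_toSet (Ioc B (B + L))).subset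
        intro m hm
        have h5 := (hm 0 hH0).1
        rw [mem_coe, mem_Ioc]
        exact h5
    have h5 : κ / (b : ℝ) ^ j * (∏ i ∈ range K, ((A i).card : ℝ)) / (K : ℝ) ^ H.card ≤
        κ * NA K A' / (K : ℝ) ^ H.card := by
      apply div_le_div_of_nonneg_right _ (by positivity)
      rw [div_mul_eq_mul_div, div_le_iff₀ (by positivity)]
      calc κ * ∏ i ∈ range K, ((A i).card : ℝ) ≤ κ * ((b : ℝ) ^ j * NA K A') :=
            mul_le_mul_of_nonneg_left hle hκ.le
        _ = κ * NA K A' * (b : ℝ) ^ j := by ring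
    exact h5.trans (h3.trans (Nat.cast_le.2 h4))
  · have hbK : (b : ℝ) ^ K ≤ Real.exp (c * K) * NA K A := by
      calc (b : ℝ) ^ K ≤ Real.exp (c / 2 * K) * ∏ i ∈ range K, ((A i).card : ℝ) := hprod
        _ ≤ Real.exp (c * K) * NA K A := by
            apply mul_le_mul_of_nonneg_right _ hNA0
            apply Real.exp_le_exp.2
            have : (0 : ℝ) ≤ c * K := by positivity
            linarith
    obtain ⟨-, h3⟩ := key A hA hbK
    refine le_trans (Nat.cast_le.2 ?_) h3
    unfold DC
    apply Set.ncard_le_ncard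
    · rintro m ⟨hm1, hm2, hm3⟩
      exact ⟨⟨⟨hm1.1, hm1.2⟩, hm3⟩, hm2⟩
    · apply (finite_toSet (Ioc B (B + L))).subset
      rintro m ⟨⟨⟨hm1, hm2⟩, -⟩, -⟩
      rw [mem_coe, mem_Ioc]
      exact ⟨hm1, hm2⟩

end Pool.Agent.Results.MP_3efbeb_nt.RestrictedDigits
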